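import Pool.Agent.Q161.OrdSum3

/-!
MP_a2af9e_co, Q1: for every orientation `D` of a complete multipartite graph with `r` odd parts the
multiplicity of `-1` as a root of the Eulerian polynomial of `D` is `⌊r / 2⌋`.
-/

set_option autoImplicit false

namespace Pool.Agent.Results.MP_a2af9e_co.MultiplicityMinusOne

open Finset Polynomial Q161.OrdSum

/-- `D` is an orientation of the complete multipartite graph on the vertices `Fin n` whose parts are
the nonempty fibres of `part` -/
structure IsOrientation {n k : ℕ} (part : Fin n → Fin k) (D : Fin n → Fin n → Prop) : Prop where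
  adj : ∀ u v, part u ≠ part v ↔ (D u v ∨ D v u)
  asymm : ∀ u v, ¬ (D u v ∧ D v u)

open Classical in
/-- the number of descents of `σ` with respect to `D` -/
noncomputable def des {n : ℕ} (D : Fin n → Fin n → Prop) (σ : Equiv.Perm (Fin n)) : ℕ :=
  (univ.filter (fun e : Fin n × Fin n => D e.1 e.2 ∧ σ e.2 < σ e.1)).card

/-- the Eulerian polynomial of `D` -/
noncomputable def eulerPoly {n : ℕ} (D : Fin n → Fin n → Prop) : ℤ[X] :=
  ∑ σ : Equiv.Perm (Fin n), X ^ des D σ

/-- the number of parts of odd size -/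
def oddParts {n k : ℕ} (part : Fin n → Fin k) : ℕ :=
  (univ.filter (fun i : Fin k => Odd (univ.filter (fun v : Fin n => part v = i)).card)).card

section

variable {n k : ℕ} (part : Fin n → Fin k) (D : Fin n → Fin n → Prop)

/-- the arcs of the transitive orientation -/
def E0 : Finset (Fin n × Fin n) := univ.filter (fun e => part e.1 < part e.2)

theorem mem_E0 {e : Fin n × Fin n} : e ∈ E0 part ↔ part e.1 < part e.2 := by
  unfold E0; rw [mem_filter]; exact ⟨fun h => h.2, fun h => ⟨mem_univ _, h⟩⟩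

open Classical in
/-- the sign of an arc -/
noncomputable def osg (e : Fin n × Fin n) : ℤ := if D e.1 e.2 then 1 else -1

/-- the sum of the signs -/
def cc (K : Finset (Fin n × Fin n)) : ℤ := ∑ σ : Equiv.Perm (Fin n), sg K σ

/-- the polynomial at `2 z - 1` -/
noncomputable def QQ (o : Fin n × Fin n → ℤ) : ℤ[X] :=
  ∑ K ∈ (E0 part).powerset, C ((∏ e ∈ K, o e) * cc K) * ((1 - X) ^ K.card * X ^ (E0 part \ K).card)

theorem QQ_eq (o : Fin n × Fin n → ℤ) : QQ part o = ∑ σ : Equiv.Perm (Fin n), ∏ e ∈ E0 part,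
    (C (o e * (if σ e.2 < σ e.1 then -1 else 1)) * (1 - X) + X) := by
  have h : ∀ σ : Equiv.Perm (Fin n), ∏ e ∈ E0 part,
      (C (o e * (if σ e.2 < σ e.1 then -1 else 1)) * (1 - X) + X : ℤ[X]) =
      ∑ K ∈ (E0 part).powerset, C ((∏ e ∈ K, o e) * sg K σ) *
        ((1 - X) ^ K.card * X ^ (E0 part \ K).card) := by
    intro σ
    rw [prod_add]
    refine sum_congr rfl (fun K _ => ?_)
    rw [prod_mul_distrib, prod_const, prod_const, ← map_prod, prod_mul_distrib]
    unfold sg
    ring
  rw [sum_congr rfl (fun σ _ => h σ), sum_comm]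
  unfold QQ cc
  refine sum_congr rfl (fun K _ => ?_)
  rw [mul_sum, map_sum, sum_mul]

variable {part D}

theorem pow_des (hD : IsOrientation part D) (σ : Equiv.Perm (Fin n)) :
    ((2 * X - 1 : ℤ[X])) ^ des D σ = ∏ e ∈ E0 part,
      (C (osg D e * (if σ e.2 < σ e.1 then -1 else 1)) * (1 - X) + X) := by
  classical
  let φ : Fin n × Fin n → ℤ[X] := fun e => if D e.1 e.2 ∧ σ e.2 < σ e.1 then 2 * X - 1 else 1
  have h1 : ((2 * X - 1 : ℤ[X])) ^ des D σ = ∏ e, φ e := by
    show _ = ∏ e : Fin n × Fin n, if D e.1 e.2 ∧ σ e.2 < σ e.1 then (2 * X - 1 : ℤ[X]) else 1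
    rw [prod_ite, prod_const_one, mul_one, prod_const]
    rfl
  have h2 : ∏ e, φ e = (∏ e ∈ E0 part, φ e) * ∏ e ∈ E0 part, φ e.swap := by
    have h3 : ∏ e ∈ E0 part, φ e.swap = ∏ e ∈ (E0 part).image Prod.swap, φ e := by
      rw [prod_image (fun a _ b _ h => Prod.swap_injective h)]
    have h4 : Disjoint (E0 part) ((E0 part).image Prod.swap) := by
      rw [disjoint_left]
      intro e he he'
      rw [mem_image] at he'
      obtain ⟨f, hf, rfl⟩ := he'
      rw [mem_E0] at he hf
      exact absurd he (not_lt.2 hf.le)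
    rw [h3, ← prod_union h4]
    symm
    apply prod_subset (subset_univ _)
    intro e _ he
    show (if D e.1 e.2 ∧ σ e.2 < σ e.1 then (2 * X - 1 : ℤ[X]) else 1) = 1
    rw [if_neg]
    rintro ⟨h5, _⟩
    apply he
    rw [mem_union, mem_image]
    have h6 : part e.1 ≠ part e.2 := (hD.adj e.1 e.2).2 (Or.inl h5)
    rcases lt_or_gt_of_ne h6 with h | h
    · left; exact (mem_E0 part).2 h
    · right; exact ⟨e.swap, (mem_E0 part).2 h, Prod.swap_swap e⟩
  rw [h1, h2, ← prod_mul_distrib]
  refine prod_congr rfl (fun e he => ?_)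
  rw [mem_E0] at he
  have hne : part e.1 ≠ part e.2 := ne_of_lt he
  have hne' : σ e.1 ≠ σ e.2 := fun h => hne (by rw [σ.injective h])
  show (if D e.1 e.2 ∧ σ e.2 < σ e.1 then (2 * X - 1 : ℤ[X]) else 1) *
    (if D e.2 e.1 ∧ σ e.1 < σ e.2 then (2 * X - 1 : ℤ[X]) else 1) = _
  unfold osg
  rcases (hD.adj e.1 e.2).1 hne with h | h
  · have h' : ¬ D e.2 e.1 := fun h' => hD.asymm _ _ ⟨h, h'⟩
    rcases lt_or_gt_of_ne hne' with h5 | h5
    · simp only [h, h', not_lt.2 h5.le, and_false, false_and, if_true, if_false]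
      simp
    · simp only [h, h', h5, and_self, false_and, if_true, if_false]
      simp only [one_mul, mul_one, map_neg, map_one]
      ring
  · have h' : ¬ D e.1 e.2 := fun h' => hD.asymm _ _ ⟨h, h'⟩
    rcases lt_or_gt_of_ne hne' with h5 | h5
    · simp only [h, h', h5, not_lt.2 h5.le, and_self, if_true, if_false]
      simp only [one_mul, mul_one, map_neg, map_one]
      ring
    · simp only [h, h', h5, not_lt.2 h5.le, and_false, false_and, if_true, if_false]
      simp

theorem comp_eq (hD : IsOrientation part D) :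
    (eulerPoly D).comp (2 * X - 1) = QQ part (osg D) := by
  unfold eulerPoly
  rw [QQ_eq, Polynomial.sum_comp]
  refine sum_congr rfl (fun σ _ => ?_)
  rw [Polynomial.X_pow_comp]
  exact pow_des hD σ

/-- few missing arcs: the sum of the signs vanishes -/
theorem cc_zero {K : Finset (Fin n × Fin n)} (hK : K ⊆ E0 part)
    (hc : (E0 part \ K).card < oddParts part / 2) : cc K = 0 := by
  classical
  set F := E0 part \ K with hF
  let T : Finset (Fin k) := F.image (fun e => part e.1) ∪ F.image (fun e => part e.2)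
  let O : Finset (Fin k) := univ.filter (fun i : Fin k => Odd (univ.filter (fun v : Fin n => part v = i)).card)
  have hT : T.card ≤ 2 * F.card := by
    refine (card_union_le _ _).trans ?_
    have h1 := card_image_le (s := F) (f := fun e => part e.1)
    have h2 := card_image_le (s := F) (f := fun e => part e.2)
    omega
  have hO : O.card = oddParts part := rfl
  have h1 : 1 < (O \ T).card := by
    have := le_card_sdiff T O
    omega
  have h2 : ∃ i ∈ O \ T, ∃ j ∈ O \ T, i < j := by
    rw [one_lt_card] at h1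
    obtain ⟨i, hi, j, hj, hij⟩ := h1
    rcases lt_or_gt_of_ne hij with h | h
    · exact ⟨i, hi, j, hj, h⟩
    · exact ⟨j, hj, i, hi, h⟩
  obtain ⟨i, hi, j, hj, hij⟩ := h2
  rw [mem_sdiff, mem_filter] at hi hj
  have hKT : ∀ e ∈ E0 part, part e.1 ∉ T ∨ part e.2 ∉ T → e ∈ K := by
    intro e he h
    by_contra hc'
    have heF : e ∈ F := by rw [hF, mem_sdiff]; exact ⟨he, hc'⟩
    rcases h with h | h
    · exact h (mem_union_left _ (mem_image_of_mem (fun e : Fin n × Fin n => part e.1) heF))
    · exact h (mem_union_right _ (mem_image_of_mem (fun e : Fin n × Fin n => part e.2) heF))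
  have hlt : ∀ u v, (u, v) ∈ K → part u < part v := fun u v h => (mem_E0 part).1 (hK h)
  have mP : ∀ v, v ∈ univ.filter (fun v : Fin n => part v = i) ↔ part v = i := fun v => by
    rw [mem_filter]; exact ⟨fun h => h.2, fun h => ⟨mem_univ _, h⟩⟩
  have mQ : ∀ v, v ∈ univ.filter (fun v : Fin n => part v = j) ↔ part v = j := fun v => by
    rw [mem_filter]; exact ⟨fun h => h.2, fun h => ⟨mem_univ _, h⟩⟩
  apply sum_sg_zero (P := univ.filter (fun v : Fin n => part v = i))
    (Q := univ.filter (fun v : Fin n => part v = j)) ?_ hi.1.2 hj.1.2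
  · intro u hu v hv h
    rw [mP] at hu hv
    have := hlt u v h
    rw [hu, hv] at this
    exact lt_irrefl _ this
  · intro u hu v hv h
    rw [mQ] at hu hv
    have := hlt u v h
    rw [hu, hv] at this
    exact lt_irrefl _ this
  · intro u hu v hv
    rw [mP] at hu
    rw [mQ] at hv
    refine ⟨hKT _ ((mem_E0 part).2 ?_) (Or.inl ?_), ?_⟩
    · show part u < part v
      rw [hu, hv]; exact hij
    · show part u ∉ T
      rw [hu]; exact hi.2
    · intro h
      have := hlt v u h
      rw [hu, hv] at this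
      exact absurd this (not_lt.2 hij.le)
  · intro u hu v hv
    rw [mem_union, mP, mQ] at hu hv
    rw [not_or] at hv
    have huT : part u ∉ T := by
      rcases hu with h | h
      · rw [h]; exact hi.2
      · rw [h]; exact hj.2
    have hne : part u ≠ part v := by
      rcases hu with h | h
      · rw [h]; exact fun h' => hv.1 h'.symm
      · rw [h]; exact fun h' => hv.2 h'.symm
    rcases lt_or_gt_of_ne hne with h | h
    · left
      refine ⟨hKT _ ((mem_E0 part).2 h) (Or.inl huT), fun h' => ?_⟩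
      exact absurd (hlt _ _ h') (not_lt.2 h.le)
    · right
      refine ⟨fun h' => ?_, hKT _ ((mem_E0 part).2 h) (Or.inr huT)⟩
      exact absurd (hlt _ _ h') (not_lt.2 h.le)
  · rw [disjoint_left]
    intro v h1 h2
    rw [mP] at h1
    rw [mQ] at h2
    rw [h1] at h2
    rw [h2] at hij
    exact lt_irrefl _ hij

theorem coeff_low (o : Fin n × Fin n → ℤ) {j : ℕ} (hj : j < oddParts part / 2) :
    (QQ part o).coeff j = 0 := by
  unfold QQ
  rw [finsetSum_coeff]
  apply sum_eq_zero
  intro K hK
  rw [mem_powerset] at hK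
  rw [coeff_C_mul]
  rcases Nat.lt_or_ge j (E0 part \ K).card with h | h
  · rw [coeff_mul_X_pow', if_neg (not_le.2 h), mul_zero]
  · rw [cc_zero hK (lt_of_le_of_lt h hj), mul_zero, zero_mul]

/-- the orientation does not matter modulo `2^(ν+1)` -/
theorem coeff_mod (j : ℕ) : (2 : ℤ) * 2 ^ nu n ∣
    (QQ part (osg D)).coeff j - (QQ part (fun _ => 1)).coeff j := by
  unfold QQ
  rw [finsetSum_coeff, finsetSum_coeff, ← sum_sub_distrib]
  apply dvd_sum
  intro K _
  rw [coeff_C_mul, coeff_C_mul, ← sub_mul]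
  apply Dvd.dvd.mul_right
  rw [← sub_mul]
  apply mul_dvd_mul
  · rw [prod_const_one]
    have : ∀ K : Finset (Fin n × Fin n), (∏ e ∈ K, osg D e) = 1 ∨ (∏ e ∈ K, osg D e) = -1 := by
      intro K
      induction K using Finset.induction_on with
      | empty => left; simp
      | insert x s hx ih =>
        rw [prod_insert hx]
        unfold osg at ih ⊢
        split_ifs <;> rcases ih with h | h <;> rw [h] <;> simp
    rcases this K with h | h <;> rw [h]
    · simp
    · norm_num
  · exact two_pow_dvd_sg K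

theorem QQ_one : QQ part (fun _ => 1) =
    ordSum (fun v u => if part u < part v then (2 * X - 1 : ℤ[X]) else 1) n univ := by
  rw [← perm_sum, QQ_eq]
  refine sum_congr rfl (fun σ _ => ?_)
  rw [prod_comm, ← Fintype.prod_prod_type'
    (fun v u => if σ u < σ v then (if part v < part u then (2 * X - 1 : ℤ[X]) else 1) else 1)]
  have h : ∀ e : Fin n × Fin n, (if σ e.2 < σ e.1 then (if part e.1 < part e.2 then
      (2 * X - 1 : ℤ[X]) else 1) else 1) = if e ∈ E0 part then
        (if σ e.2 < σ e.1 then 2 * X - 1 else 1) else 1 := by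
    intro e
    by_cases h1 : part e.1 < part e.2
    · have h1' : e ∈ E0 part := (mem_E0 part).2 h1
      by_cases h2 : σ e.2 < σ e.1 <;> simp [h1, h1', h2]
    · have h1' : e ∉ E0 part := fun h => h1 ((mem_E0 part).1 h)
      by_cases h2 : σ e.2 < σ e.1 <;> simp [h1, h1', h2]
  rw [prod_congr rfl (fun e _ => h e), prod_ite_mem, univ_inter]
  refine prod_congr rfl (fun e _ => ?_)
  split_ifs
  · simp only [one_mul, map_neg, map_one]; ring
  · simp

theorem coeff_one : ∃ o : ℕ, Odd o ∧ ∃ o' : ℕ, Odd o' ∧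
    (QQ part (fun _ => 1)).coeff (oddParts part / 2) * (o : ℤ) = (o' : ℤ) * (n.factorial : ℤ) := by
  classical
  let p' : Fin n → ℕ := fun v => (part v : ℕ)
  have hform := main_formula p' (2 * X - 1 : ℤ[X]) k n univ (by simp) (fun v _ => (part v).2)
  have hQ : QQ part (fun _ => 1) =
      ordSum (fun v u => if p' u < p' v then (2 * X - 1 : ℤ[X]) else 1) n univ := QQ_one
  rw [← hQ] at hform
  choose h h1 h2 using qf_spec
  choose od hod1 hod2 using fact_odd
  set c : ℕ → ℕ := fun i => cnt p' univ i with hc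
  set m := oddParts part / 2 with hm
  -- the number of vertices
  have hcsum : ∑ i ∈ range k, c i = n := by
    have h3 : (univ : Finset (Fin n)).card = ∑ i ∈ range k, c i :=
      card_eq_sum_card_fiberwise (fun v _ => by rw [mem_coe, mem_range]; exact (part v).2)
    rw [← h3]; simp
  have hodd : oddParts part = ∑ i ∈ range k, c i % 2 := by
    unfold oddParts
    rw [card_filter, ← Fin.sum_univ_eq_sum_range (fun i => c i % 2)]
    refine sum_congr rfl (fun i _ => ?_)
    have h3 : c i = (univ.filter (fun v : Fin n => part v = i)).card := by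
      show (univ.filter (fun v : Fin n => p' v = (i : ℕ))).card = _
      have h4 : univ.filter (fun v : Fin n => p' v = (i : ℕ)) =
          univ.filter (fun v : Fin n => part v = i) := by
        ext v
        rw [mem_filter, mem_filter]
        exact ⟨fun h => ⟨h.1, Fin.ext h.2⟩, fun h => ⟨h.1, congrArg Fin.val h.2⟩⟩
      rw [h4]
    rw [h3]
    split_ifs with h4
    · exact (Nat.odd_iff.1 h4).symm
    · exact (Nat.even_iff.1 (Nat.not_odd_iff_even.1 h4)).symm
  have hhalf : n / 2 = m + ∑ i ∈ range k, c i / 2 := by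
    have h3 : ∑ i ∈ range k, c i = 2 * ∑ i ∈ range k, c i / 2 + ∑ i ∈ range k, c i % 2 := by
      rw [mul_sum, ← sum_add_distrib]
      exact sum_congr rfl (fun i _ => (Nat.div_add_mod _ _).symm)
    rw [hcsum, ← hodd] at h3
    omega
  obtain ⟨R, hR⟩ : (X : ℤ[X]) ^ m ∣ QQ part (fun _ => 1) :=
    X_pow_dvd_iff.2 (fun d hd => coeff_low _ hd)
  have hcoeff : (QQ part (fun _ => 1)).coeff m = R.coeff 0 := by
    rw [hR, coeff_X_pow_mul', if_pos (le_refl _), Nat.sub_self]
  have h3 : ∏ i ∈ range k, qf (2 * X - 1 : ℤ[X]) (c i) =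
      X ^ (∑ i ∈ range k, c i / 2) * ∏ i ∈ range k, h (c i) := by
    rw [← prod_pow_eq_pow_sum, ← prod_mul_distrib]
    exact prod_congr rfl (fun i _ => h1 _)
  have h4 : R * ∏ i ∈ range k, h (c i) =
      ((∏ i ∈ range k, (c i).factorial : ℕ) : ℤ[X]) * h n := by
    have h5 : (X : ℤ[X]) ^ (n / 2) ≠ 0 := pow_ne_zero _ X_ne_zero
    apply mul_left_cancel₀ h5
    have h6 : QQ part (fun _ => 1) * ∏ i ∈ range k, qf (2 * X - 1 : ℤ[X]) (c i) =
        ((∏ i ∈ range k, (c i).factorial : ℕ) : ℤ[X]) * qf (2 * X - 1) n := hform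
    rw [h3, h1 n, hR] at h6
    calc (X : ℤ[X]) ^ (n / 2) * (R * ∏ i ∈ range k, h (c i))
        = X ^ m * R * (X ^ (∑ i ∈ range k, c i / 2) * ∏ i ∈ range k, h (c i)) := by
          rw [hhalf, pow_add]; ring
      _ = _ := by rw [h6]; ring
  have h5 := congrArg (fun P : ℤ[X] => P.coeff 0) h4
  simp only [mul_coeff_zero] at h5
  have h6 : (∏ i ∈ range k, h (c i)).coeff 0 =
      ∏ i ∈ range k, (2 ^ (c i / 2) * ((c i / 2).factorial : ℤ)) := by
    rw [coeff_zero_eq_eval_zero, eval_prod]
    refine prod_congr rfl (fun i _ => ?_)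
    rw [← coeff_zero_eq_eval_zero, h2]
  have h7 : (((∏ i ∈ range k, (c i).factorial : ℕ) : ℤ[X])).coeff 0 =
      ∏ i ∈ range k, ((c i).factorial : ℤ) := by
    rw [coeff_zero_eq_eval_zero, eval_natCast]
    push_cast
    rfl
  rw [h6, h7, h2] at h5
  refine ⟨od n, hod1 n, ∏ i ∈ range k, od (c i), ?_, ?_⟩
  · have : ∀ s : Finset ℕ, Odd (∏ i ∈ s, od (c i)) := by
      intro s
      induction s using Finset.induction_on with
      | empty => simp
      | insert x s hx ih => rw [prod_insert hx]; exact (hod1 _).mul ih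
    exact this _
  · rw [hcoeff]
    have h8 : ∏ i ∈ range k, ((c i).factorial : ℤ) =
        (∏ i ∈ range k, (2 ^ (c i / 2) * ((c i / 2).factorial : ℤ))) *
          ∏ i ∈ range k, (od (c i) : ℤ) := by
      rw [← prod_mul_distrib]
      refine prod_congr rfl (fun i _ => ?_)
      have := hod2 (c i)
      exact_mod_cast this
    have h9 : (∏ i ∈ range k, (2 ^ (c i / 2) * ((c i / 2).factorial : ℤ))) ≠ 0 := by
      apply prod_ne_zero_iff.2
      intro i _
      exact mul_ne_zero (by positivity) (by exact_mod_cast Nat.factorial_ne_zero _)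
    apply mul_left_cancel₀ h9
    have h10 : (n.factorial : ℤ) = 2 ^ (n / 2) * ((n / 2).factorial : ℤ) * (od n : ℤ) := by
      have := hod2 n
      exact_mod_cast this
    rw [h8] at h5
    rw [h10]
    push_cast
    linear_combination (od n : ℤ) * h5

theorem coeff_ne_zero : (QQ part (osg D)).coeff (oddParts part / 2) ≠ 0 := by
  intro h0
  obtain ⟨o, ho, o', ho', h1⟩ := coeff_one (part := part)
  have h2 := coeff_mod (part := part) (D := D) (oddParts part / 2)
  rw [h0, zero_sub, dvd_neg] at h2
  have h3 : (2 : ℤ) * 2 ^ nu n ∣ (o' : ℤ) * (n.factorial : ℤ) := by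
    rw [← h1]
    exact Dvd.dvd.mul_right h2 _
  have h4 : 2 ^ (nu n + 1) ∣ o' * n.factorial := by
    rw [pow_succ, mul_comm]
    exact_mod_cast h3
  have h5 : Nat.Coprime (2 ^ (nu n + 1)) o' :=
    Nat.Coprime.pow_left _ ((Nat.coprime_two_left).2 ho')
  have h6 := h5.dvd_of_dvd_mul_left h4
  exact pow_succ_padicValNat_not_dvd (p := 2) (Nat.factorial_ne_zero n) h6

end

/-- For every orientation `D` of a complete multipartite graph with exactly `r` parts of odd size,
the multiplicity of `-1` as a root of `A_D(t)` is `⌊r / 2⌋`. -/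
theorem result {n k : ℕ} (part : Fin n → Fin k) (D : Fin n → Fin n → Prop)
    (hD : IsOrientation part D) :
    rootMultiplicity (-1 : ℂ) ((eulerPoly D).map (Int.castRingHom ℂ)) = oddParts part / 2 := by
  have e1 : (-1 : ℂ) = (Int.castRingHom ℂ) (-1) := by simp
  rw [e1, ← eq_rootMultiplicity_map (f := Int.castRingHom ℂ) Int.cast_injective (-1 : ℤ)]
  set A := eulerPoly D with hA
  have hcomp : A.comp (2 * X - 1) = QQ part (osg D) := comp_eq hD
  have hne := coeff_ne_zero (part := part) (D := D)
  have hA0 : A ≠ 0 := by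
    intro h0
    rw [h0, zero_comp] at hcomp
    rw [← hcomp, coeff_zero] at hne
    exact hne rfl
  obtain ⟨g, hg1, hg2⟩ := exists_eq_pow_rootMultiplicity_mul_and_not_dvd A hA0 (-1 : ℤ)
  set κ := rootMultiplicity (-1 : ℤ) A with hκ
  have h1 : QQ part (osg D) = X ^ κ * (2 ^ κ * g.comp (2 * X - 1)) := by
    rw [← hcomp, hg1, mul_comp, pow_comp]
    have : ((X - C (-1 : ℤ)).comp (2 * X - 1) : ℤ[X]) = X * 2 := by
      simp
      ring
    rw [this, mul_pow]
    ring
  have h2 : (QQ part (osg D)).coeff κ ≠ 0 := by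
    rw [h1, coeff_X_pow_mul', if_pos (le_refl _), Nat.sub_self, mul_coeff_zero,
      coeff_zero_eq_eval_zero (g.comp _), eval_comp]
    apply mul_ne_zero
    · rw [coeff_zero_eq_eval_zero]
      simp
    · intro h0
      apply hg2
      rw [dvd_iff_isRoot]
      show eval (-1) g = 0
      simpa using h0
  rcases lt_trichotomy κ (oddParts part / 2) with h | h | h
  · exact absurd (coeff_low _ h) h2
  · exact h
  · exfalso
    apply hne
    rw [h1, coeff_X_pow_mul', if_neg (not_le.2 h)]

end Pool.Agent.Results.MP_a2af9e_co.MultiplicityMinusOne
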